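import Pool.Agent.TH803.CL.Ker

/-!
# The trace inequality for clusters of points, with a general symmetric kernel

The kernel need not be close to `1` on the diagonal at the points of an exceptional set (the zeros
near the ends of the window).
-/

open scoped BigOperators ComplexConjugate

set_option autoImplicit false
set_option maxHeartbeats 4000000

namespace Pool.Agent.J6H88.IZ

open H370 TH803UC TH803CL

open Classical in
/-- **the trace inequality for clusters, general kernel** -/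
theorem cluster_K {E : Type*} [NormedAddCommGroup E] [InnerProductSpace ℂ E]
    (K : ℂ → ℂ → ℂ) (k : ℂ → E) (hk : ∀ z w, inner ℂ (k z) (k w) = K ((starRingEnd ℂ) z) w)
    (hsym : ∀ z w, K z w = K w z)
    (Z : Finset ℂ) (hZ : ∀ z ∈ Z, (starRingEnd ℂ) z ∈ Z) (m : ℂ → ℕ)
    (hm1 : ∀ z ∈ Z, 1 ≤ m z) (hmc : ∀ z ∈ Z, m ((starRingEnd ℂ) z) = m z)
    (π : ℂ → ℂ) (ed : ℂ → Prop) {η : ℝ} (hη : 0 ≤ η)
    (hE : ∀ z ∈ Z, ∀ w ∈ Z, 0 ≤ z.im → 0 ≤ w.im → π z = π w → ed z → z = w)
    (hA : ∀ z ∈ Z, ∀ w ∈ Z, 0 ≤ z.im → 0 ≤ w.im → π z = π w → ¬ ed z → ¬ ed w →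
      (K ((starRingEnd ℂ) z) z).re - 2 * η ≤ (K ((starRingEnd ℂ) z) w).re)
    (hB : ∀ z ∈ Z, ∀ w ∈ Z, 0 ≤ z.im → 0 ≤ w.im → π z = π w → ¬ ed z → ¬ ed w →
      1 - η ≤ (K ((starRingEnd ℂ) z) ((starRingEnd ℂ) w)).re)
    (hK2 : ∀ z ∈ Z, -2 ≤ (K z z).re) :
    2 * (∑ z ∈ Z.filter (fun z => 0 ≤ z.im), cw m z) -
      (((Z.filter (fun z => 0 ≤ z.im)).image π).filter (fun a => Wc Z m π a = 1)).card -
      8 * η * (∑ z ∈ Z.filter (fun z => 0 ≤ z.im), cw m z) -
      14 * (∑ z ∈ (Z.filter (fun z => 0 ≤ z.im)).filter ed, cw m z) ≤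
      (∑ z ∈ Z, ∑ w ∈ Z, (m z : ℂ) * (m w : ℂ) * (K z w) ^ 2).re := by
  set P := Z.filter (fun z => 0 ≤ z.im) with hP
  have hPm : ∀ z ∈ P, z ∈ Z ∧ 0 ≤ z.im := fun z hz => by rwa [hP, Finset.mem_filter] at hz
  -- conj relation
  have hcj : ∀ a b, (starRingEnd ℂ) (K a b) = K ((starRingEnd ℂ) a) ((starRingEnd ℂ) b) := by
    intro a b
    have h1 := inner_conj_symm (𝕜 := ℂ) (k b) (k ((starRingEnd ℂ) a))
    rw [hk, hk, Complex.conj_conj] at h1
    rw [h1, hsym]
  have hdiag : ∀ z, (K ((starRingEnd ℂ) z) ((starRingEnd ℂ) z)).re = (K z z).re := fun z => by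
    rw [← hcj, Complex.conj_re]
  set W := Wc Z m π with hW
  have hWi : ∀ a ∈ P.image π, W a = 1 ∨ 2 ≤ W a := fun a ha => Wc_int hm1 ha
  have hW1 : ∀ a ∈ P.image π, 1 ≤ W a := by
    intro a ha
    rcases hWi a ha with h | h <;> linarith
  set κ : ℂ → ℝ := fun a => if W a = 1 then 1 else 2 with hκ
  have hκ1 : ∀ a, 0 ≤ κ a ∧ κ a ≤ 2 := by
    intro a; simp only [hκ]; split_ifs <;> norm_num
  set D : ℂ → ℂ → ℝ := fun z w => if π z = π w then
    κ (π z) / W (π z) * (Real.sqrt (cw m z) * Real.sqrt (cw m w)) else 0 with hD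
  have hWdef : ∀ a, W a = ∑ z ∈ P.filter (fun z => π z = a), cw m z := fun a => rfl
  have hD2 : ∀ v : ℂ → ℂ, ∑ i ∈ P, ∑ j ∈ P, D i j * ((starRingEnd ℂ (v i)) * v j).re ≤
        2 * ∑ i ∈ P, ‖v i‖ ^ 2 := by
    intro v
    have e1 : ∀ i ∈ P, ∀ j ∈ P, D i j * ((starRingEnd ℂ (v i)) * v j).re =
        if π i = π j then κ (π i) / W (π i) * (Real.sqrt (cw m i) * Real.sqrt (cw m j)) *
          ((starRingEnd ℂ (v i)) * v j).re else 0 := by
      intro i _ j _
      simp only [hD]
      split_ifs <;> simp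
    rw [Finset.sum_congr rfl fun i hi => Finset.sum_congr rfl fun j hj => e1 i hi j hj,
      sum_fib, sum_fib1 P π (fun i => ‖v i‖ ^ 2), Finset.mul_sum]
    refine Finset.sum_le_sum fun a ha => ?_
    set C := P.filter (fun z => π z = a) with hC
    have hWa := hW1 a ha
    have hWa0 : 0 < W a := by linarith
    have h1 : ∑ i ∈ C, ∑ j ∈ C, κ (π i) / W (π i) * (Real.sqrt (cw m i) * Real.sqrt (cw m j)) *
          ((starRingEnd ℂ (v i)) * v j).re ≤ κ a / W a *
          (∑ i ∈ C, Real.sqrt (cw m i) * ‖v i‖) ^ 2 := by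
      rw [sq, Finset.sum_mul_sum, Finset.mul_sum]
      refine Finset.sum_le_sum fun i hi => ?_
      rw [Finset.mul_sum]
      refine Finset.sum_le_sum fun j hj => ?_
      have hi2 : π i = a := (Finset.mem_filter.1 hi).2
      rw [hi2]
      have h2 : ((starRingEnd ℂ (v i)) * v j).re ≤ ‖v i‖ * ‖v j‖ := by
        refine (Complex.re_le_norm _).trans ?_
        rw [norm_mul, RCLike.norm_conj]
      have h3 : 0 ≤ κ a / W a := div_nonneg (hκ1 a).1 hWa0.le
      calc κ a / W a * (Real.sqrt (cw m i) * Real.sqrt (cw m j)) *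
          ((starRingEnd ℂ (v i)) * v j).re ≤
          κ a / W a * (Real.sqrt (cw m i) * Real.sqrt (cw m j)) * (‖v i‖ * ‖v j‖) := by gcongr
        _ = _ := by ring
    refine h1.trans ?_
    have h4 : (∑ i ∈ C, Real.sqrt (cw m i) * ‖v i‖) ^ 2 ≤
        (∑ i ∈ C, (Real.sqrt (cw m i)) ^ 2) * (∑ i ∈ C, ‖v i‖ ^ 2) :=
      Finset.sum_mul_sq_le_sq_mul_sq C _ _
    have h5 : ∑ i ∈ C, (Real.sqrt (cw m i)) ^ 2 = W a := by
      rw [hWdef]
      exact Finset.sum_congr rfl fun i _ => Real.sq_sqrt (cw_nonneg m i)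
    rw [h5] at h4
    have h6 : 0 ≤ κ a / W a := div_nonneg (hκ1 a).1 hWa0.le
    have h7 : 0 ≤ ∑ i ∈ C, ‖v i‖ ^ 2 := Finset.sum_nonneg fun i _ => by positivity
    calc κ a / W a * (∑ i ∈ C, Real.sqrt (cw m i) * ‖v i‖) ^ 2 ≤
        κ a / W a * (W a * ∑ i ∈ C, ‖v i‖ ^ 2) := by gcongr
      _ = κ a * ∑ i ∈ C, ‖v i‖ ^ 2 := by field_simp
      _ ≤ 2 * ∑ i ∈ C, ‖v i‖ ^ 2 := by
        gcongr
        exact (hκ1 a).2
  have hmain := trace_D K k hk hsym Z hZ m hmc D hD2
  rw [← hP] at hmain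
  have e2 : ∀ z ∈ P, ∀ w ∈ P, (2 * (D z w * (Real.sqrt (cw m z / 4) * Real.sqrt (cw m w / 4) *
          (2 * (K ((starRingEnd ℂ) z) w).re +
            2 * (K ((starRingEnd ℂ) z) ((starRingEnd ℂ) w)).re))) - (D z w) ^ 2) =
      if π z = π w then κ (π z) / W (π z) * (cw m z * cw m w) *
        ((K ((starRingEnd ℂ) z) w).re + (K ((starRingEnd ℂ) z) ((starRingEnd ℂ) w)).re) -
          (κ (π z) / W (π z)) ^ 2 * (cw m z * cw m w) else 0 := by
    intro z _ w _
    have s1 : ∀ u : ℂ, Real.sqrt (cw m u / 4) = Real.sqrt (cw m u) / 2 := by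
      intro u
      rw [Real.sqrt_div (cw_nonneg m u), show (4 : ℝ) = 2 ^ 2 by norm_num,
        Real.sqrt_sq (by norm_num)]
    have s2 : ∀ u : ℂ, Real.sqrt (cw m u) * Real.sqrt (cw m u) = cw m u :=
      fun u => Real.mul_self_sqrt (cw_nonneg m u)
    simp only [hD, s1]
    split_ifs with h
    · set A := (K ((starRingEnd ℂ) z) w).re
      set B := (K ((starRingEnd ℂ) z) ((starRingEnd ℂ) w)).re
      set q := κ (π z) / W (π z)
      calc _ = q * ((Real.sqrt (cw m z) * Real.sqrt (cw m z)) *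
            (Real.sqrt (cw m w) * Real.sqrt (cw m w))) * (A + B) -
            q ^ 2 * ((Real.sqrt (cw m z) * Real.sqrt (cw m z)) *
            (Real.sqrt (cw m w) * Real.sqrt (cw m w))) := by ring
        _ = _ := by rw [s2, s2]
    · simp
  rw [Finset.sum_congr rfl fun z hz => Finset.sum_congr rfl fun w hw => e2 z hz w hw,
    sum_fib, sum_fib1 P π (fun z => 2 * cw m z *
      ((K ((starRingEnd ℂ) z) z).re - (K z z).re))] at hmain
  have hcard : ((((P.image π).filter (fun a => W a = 1)).card : ℕ) : ℝ) =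
      ∑ a ∈ P.image π, (if W a = 1 then (1 : ℝ) else 0) := by
    rw [Finset.sum_boole]
  have hedg : ∑ z ∈ P.filter ed, cw m z = ∑ z ∈ P, (if ed z then cw m z else 0) := by
    rw [Finset.sum_filter]
  rw [hcard, hedg, sum_fib1 P π (fun z => cw m z), sum_fib1 P π (fun z => if ed z then cw m z else 0),
    Finset.mul_sum, Finset.mul_sum, Finset.mul_sum, ← Finset.sum_sub_distrib,
    ← Finset.sum_sub_distrib, ← Finset.sum_sub_distrib]
  have key : ∀ a ∈ P.image π, (2 * ∑ z ∈ P.filter (fun z => π z = a), cw m z -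
      (if W a = 1 then (1 : ℝ) else 0) - 8 * η * ∑ z ∈ P.filter (fun z => π z = a), cw m z -
      14 * ∑ z ∈ P.filter (fun z => π z = a), (if ed z then cw m z else 0)) +
      ∑ z ∈ P.filter (fun z => π z = a), 2 * cw m z *
        ((K ((starRingEnd ℂ) z) z).re - (K z z).re) ≤
      ∑ z ∈ P.filter (fun z => π z = a), ∑ w ∈ P.filter (fun z => π z = a),
        (κ (π z) / W (π z) * (cw m z * cw m w) *
        ((K ((starRingEnd ℂ) z) w).re + (K ((starRingEnd ℂ) z) ((starRingEnd ℂ) w)).re) -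
          (κ (π z) / W (π z)) ^ 2 * (cw m z * cw m w)) := by
    intro a ha
    set C := P.filter (fun z => π z = a) with hC
    have hWa := hW1 a ha
    have hWa0 : 0 < W a := by linarith
    have hCm : ∀ z ∈ C, z ∈ P ∧ π z = a := fun z hz => Finset.mem_filter.1 hz
    set Y : ℂ → ℝ := fun z => (K ((starRingEnd ℂ) z) z).re with hY
    set B : ℂ → ℝ := fun z => (K z z).re with hB'
    have h5 : ∑ z ∈ C, 2 * cw m z * ((K ((starRingEnd ℂ) z) z).re - (K z z).re) =
        2 * ∑ z ∈ C, cw m z * Y z - 2 * ∑ z ∈ C, cw m z * B z := by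
      rw [Finset.mul_sum, Finset.mul_sum, ← Finset.sum_sub_distrib]
      refine Finset.sum_congr rfl fun z _ => ?_
      simp only [hY, hB']
      ring
    rw [h5, ← hWdef a]
    by_cases hed : ∃ z ∈ C, ed z
    · -- an exceptional point
      obtain ⟨z, hz, hzed⟩ := hed
      obtain ⟨hz1, hz2⟩ := hCm z hz
      have hCs : C = {z} := by
        ext w
        rw [Finset.mem_singleton]
        constructor
        · intro hw
          obtain ⟨hw1, hw2⟩ := hCm w hw
          exact (hE z (hPm z hz1).1 w (hPm w hw1).1 (hPm z hz1).2 (hPm w hw1).2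
            (hz2.trans hw2.symm) hzed).symm
        · rintro rfl; exact hz
      have hWz : W a = cw m z := by rw [hWdef a, ← hC, hCs, Finset.sum_singleton]
      rw [hCs]
      simp only [Finset.sum_singleton]
      rw [if_pos hzed, hz2, ← hWz]
      have hd := hdiag z
      have hY1 : (K ((starRingEnd ℂ) z) z).re = Y z := rfl
      have hB1 : (K ((starRingEnd ℂ) z) ((starRingEnd ℂ) z)).re = B z := hd
      rw [hY1, hB1]
      have hb2 : -2 ≤ B z := hK2 z (hPm z hz1).1
      have e3 : κ a / W a * (W a * W a) * (Y z + B z) - (κ a / W a) ^ 2 * (W a * W a) =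
          κ a * W a * (Y z + B z) - κ a ^ 2 := by
        field_simp
      rw [e3]
      have hηW : 0 ≤ η * W a := mul_nonneg hη hWa0.le
      have hbW : W a * (-2) ≤ W a * B z := mul_le_mul_of_nonneg_left hb2 hWa0.le
      rcases hWi a ha with hw | hw
      · have hreal : z.im = 0 := by
          by_contra hne
          have b1 := cw_two hm1 (hPm z hz1).1 hne
          linarith
        have hc : (starRingEnd ℂ) z = z := Complex.conj_eq_iff_im.mpr hreal
        have hYB : Y z = B z := by simp only [hY, hB']; rw [hc]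
        have hk1 : κ a = 1 := by simp only [hκ]; rw [if_pos hw]
        rw [if_pos hw, hk1, hYB]
        rw [hw] at hbW hηW ⊢
        linarith
      · have hw1 : W a ≠ 1 := fun h => by rw [h] at hw; norm_num at hw
        have hk2 : κ a = 2 := by simp only [hκ]; rw [if_neg hw1]
        rw [if_neg hw1, hk2]
        nlinarith
    · push Not at hed
      have hzero : ∑ z ∈ C, (if ed z then cw m z else 0) = 0 :=
        Finset.sum_eq_zero fun z hz => by rw [if_neg (hed z hz)]
      rw [hzero]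
      -- lower bound for the double sum
      have h1 : ∑ z ∈ C, ∑ w ∈ C, (κ a / W a * (cw m z * cw m w) * (Y z + 1 - 3 * η) -
            (κ a / W a) ^ 2 * (cw m z * cw m w)) ≤
          ∑ z ∈ C, ∑ w ∈ C, (κ (π z) / W (π z) * (cw m z * cw m w) *
          ((K ((starRingEnd ℂ) z) w).re + (K ((starRingEnd ℂ) z) ((starRingEnd ℂ) w)).re) -
            (κ (π z) / W (π z)) ^ 2 * (cw m z * cw m w)) := by
        refine Finset.sum_le_sum fun z hz => Finset.sum_le_sum fun w hw => ?_
        obtain ⟨hz1, hz2⟩ := hCm z hz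
        obtain ⟨hw1, hw2⟩ := hCm w hw
        rw [hz2]
        have hz3 := hPm z hz1
        have hw3 := hPm w hw1
        have a1 := hA z hz3.1 w hw3.1 hz3.2 hw3.2 (hz2.trans hw2.symm) (hed z hz) (hed w hw)
        have a2 := hB z hz3.1 w hw3.1 hz3.2 hw3.2 (hz2.trans hw2.symm) (hed z hz) (hed w hw)
        have h3 : 0 ≤ κ a / W a * (cw m z * cw m w) :=
          mul_nonneg (div_nonneg (hκ1 a).1 hWa0.le) (mul_nonneg (cw_nonneg m z) (cw_nonneg m w))
        have h4 : Y z + 1 - 3 * η ≤ (K ((starRingEnd ℂ) z) w).re +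
            (K ((starRingEnd ℂ) z) ((starRingEnd ℂ) w)).re := by
          simp only [hY]; linarith
        have := mul_le_mul_of_nonneg_left h4 h3
        linarith
      have h2 : ∑ z ∈ C, ∑ w ∈ C, (κ a / W a * (cw m z * cw m w) * (Y z + 1 - 3 * η) -
            (κ a / W a) ^ 2 * (cw m z * cw m w)) =
          κ a * ∑ z ∈ C, cw m z * Y z + κ a * (1 - 3 * η) * W a - κ a ^ 2 := by
        have e3 : ∀ z ∈ C, ∑ w ∈ C, (κ a / W a * (cw m z * cw m w) * (Y z + 1 - 3 * η) -
            (κ a / W a) ^ 2 * (cw m z * cw m w)) = κ a * (cw m z * Y z) +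
              κ a * (1 - 3 * η) * cw m z - κ a ^ 2 / W a * cw m z := by
          intro z _
          have : ∑ w ∈ C, (κ a / W a * (cw m z * cw m w) * (Y z + 1 - 3 * η) -
            (κ a / W a) ^ 2 * (cw m z * cw m w)) = (κ a / W a * cw m z * (Y z + 1 - 3 * η) -
              (κ a / W a) ^ 2 * cw m z) * ∑ w ∈ C, cw m w := by
            rw [Finset.mul_sum]
            refine Finset.sum_congr rfl fun w _ => ?_
            ring
          rw [this, ← hWdef a]
          field_simp
          ring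
        rw [Finset.sum_congr rfl e3, Finset.sum_sub_distrib, Finset.sum_add_distrib,
          ← Finset.mul_sum, ← Finset.mul_sum, ← Finset.mul_sum, ← hWdef a]
        field_simp
      -- the diagonal
      have hBW : (1 - η) * W a ≤ ∑ z ∈ C, cw m z * B z := by
        rw [hWdef a, Finset.mul_sum]
        refine Finset.sum_le_sum fun z hz => ?_
        obtain ⟨hz1, hz2⟩ := hCm z hz
        have hz3 := hPm z hz1
        have a2 := hB z hz3.1 z hz3.1 hz3.2 hz3.2 rfl (hed z hz) (hed z hz)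
        rw [hdiag] at a2
        have := mul_le_mul_of_nonneg_left a2 (cw_nonneg m z)
        simp only [hB']
        linarith
      have hηW : 0 ≤ η * W a := mul_nonneg hη hWa0.le
      refine le_trans ?_ (h2 ▸ h1)
      rcases hWi a ha with hw | hw
      · have hreal : ∀ z ∈ C, z.im = 0 := by
          intro z hz
          by_contra hne
          obtain ⟨hz1, hz2⟩ := hCm z hz
          have b1 := cw_two hm1 (hPm z hz1).1 hne
          have b2 : cw m z ≤ W a := by
            have := Wc_ge (m := m) (π := π) hz1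
            rwa [hz2] at this
          linarith
        have hYs : ∑ z ∈ C, cw m z * Y z = ∑ z ∈ C, cw m z * B z := by
          refine Finset.sum_congr rfl fun z hz => ?_
          have hc : (starRingEnd ℂ) z = z := Complex.conj_eq_iff_im.mpr (hreal z hz)
          simp only [hY, hB']
          rw [hc]
        have hk1 : κ a = 1 := by simp only [hκ]; rw [if_pos hw]
        rw [if_pos hw, hYs, hk1]
        rw [hw] at hBW hηW ⊢
        linarith
      · have hw1 : W a ≠ 1 := fun h => by rw [h] at hw; norm_num at hw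
        have hk2 : κ a = 2 := by simp only [hκ]; rw [if_neg hw1]
        rw [if_neg hw1, hk2]
        nlinarith
  have := Finset.sum_le_sum key
  rw [Finset.sum_add_distrib] at this
  linarith

end Pool.Agent.J6H88.IZ
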