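import Pool.Agent.J6H88.IZ.Core
import Pool.Agent.Y762.FinJ

/-!
# Isolated zeros: cosets of characters and single characters
-/

open Complex Filter Topology Set MeasureTheory
open H370 (zset mult NN Nd Ns)

set_option autoImplicit false
set_option maxHeartbeats 4000000

namespace Pool.Agent.J6H88.IZ

open H385
open Pool.Agent.Y762
open Pool.Agent.TH243.CYC (LP)

theorem iso_eq {q : ℕ} [NeZero q] (χ : DirichletCharacter ℂ q) (T1 T2 d : ℝ) (h : 0 ≤ T1) :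
    isoS (DirichletCharacter.LFunction χ) T1 T2 d = isoS (LP χ) T1 T2 d := by
  have hq : 0 < q := NeZero.pos q
  have e : DirichletCharacter.LFunction χ = LF q χ := by
    unfold LF; rw [dif_neg (NeZero.ne q)]
  have hz := LF_zset_eq q hq χ T1 T2 h
  have hzero : ∀ s : ℂ, 0 < s.re → s.re < 1 → (LF q χ s = 0 ↔ LP χ s = 0) := by
    intro s h1 h2
    have hs : s ≠ 1 := by rintro rfl; simp at h2
    rw [LF_eq_mul q hq χ hs]
    constructor
    · intro h5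
      exact (mul_eq_zero.mp h5).resolve_right (EP_ne_zero q χ h1)
    · intro h5
      have h6 : LF χ.conductor χ.primitiveCharacter s = 0 := h5
      rw [h6, zero_mul]
  rw [e]
  unfold isoS
  ext s
  simp only [Set.mem_ofPred_eq]
  rw [hz]
  have hm : ∀ s : ℂ, s ∈ zset (LP χ) T1 T2 → mult (LF q χ) s = mult (LP χ) s := by
    intro s hs
    have hs1 : s ≠ 1 := by
      rintro rfl
      have := hs.2.1
      simp at this
    exact LF_mult_eq q hq χ hs1 hs.1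
  constructor
  · rintro ⟨h1, h2, h3, h4⟩
    refine ⟨h1, h2, by rw [← hm s h1]; exact h3, fun s' a b c d => h4 s' ((hzero s' b c).2 a) b c d⟩
  · rintro ⟨h1, h2, h3, h4⟩
    refine ⟨h1, h2, by rw [hm s h1]; exact h3, fun s' a b c d => h4 s' ((hzero s' b c).1 a) b c d⟩

theorem set_iso (Ca h ε : ℝ) (hCa : 0 < Ca) (hh0 : 0 < h) (hh1 : h ≤ 1) (hε : 0 < ε) :
    ∃ C0 ζ s : ℝ, 1 ≤ C0 ∧ 0 < ζ ∧ 0 < s ∧ s ≤ 1 / 2 ∧ ∀ (q : ℕ) [NeZero q] (T V : ℝ)
      (S : Finset (DirichletCharacter ℂ q)),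
      C0 * (1 + Real.sqrt (Real.log q)) ≤ T → 0 < S.card → 0 ≤ V →
      V ≤ ζ * (T * Real.log (q * T)) →
      ∑ χ ∈ S, (Real.log q - Real.log χ.conductor) ≤ ζ * Real.log (q * T) * (S.card : ℝ) →
      (∀ u : ℝ, 0 ≤ u → u ≤ h * (1 - s) * Real.log (q * T) →
        MSH Ca q S T (4 * Real.sqrt (Real.log (q * T))) V u) →
      ∀ dl : ℝ, 0 < dl → dl ≤ 1 / 10 →
      (2 - cH h - 74 * dl ^ 2 - ε) *
        ∑ χ ∈ S, (NN (DirichletCharacter.LFunction χ) T (2 * T) : ℝ) ≤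
        ∑ χ ∈ S, ((isoS (DirichletCharacter.LFunction χ) T (2 * T)
          (dl / Real.log (q * T))).ncard : ℝ) := by
  obtain ⟨s, e, hs0, hs1, he0, heε, hβ0, hβ1, hconst⟩ := const_choice h ε hh0 hh1 hε
  obtain ⟨hγ0, hγπ⟩ := gam_ok h hh0 hh1
  obtain ⟨C0, ζ, hC0, hζ, H⟩ := core_iso Ca (Real.sqrt 2 * h) (h * (1 - s)) e hCa hγ0 hγπ
    hβ0 hβ1 he0
  refine ⟨C0, ζ, s, hC0, hζ, hs0, hs1, ?_⟩
  intro q _ T V S hT hS hV0 hV hc hms dl hdl hdl1
  obtain ⟨r1, -⟩ := H q T V S hT hS hV0 hV hc hms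
  have r1 := r1 dl hdl hdl1
  have hT1 : 1 ≤ T := by
    refine le_trans ?_ hT
    have := Real.sqrt_nonneg (Real.log q)
    nlinarith
  have hc : ∀ χ : DirichletCharacter ℂ q, _ := fun χ =>
    Pool.Agent.TH243.CYC.counts χ T (2 * T) (by linarith)
  have hi : ∀ χ : DirichletCharacter ℂ q, _ := fun χ =>
    iso_eq χ T (2 * T) (dl / Real.log (q * T)) (by linarith)
  simp only [fun χ => (hc χ).1, hi]
  rw [Finset.sum_sub_distrib, ← Finset.mul_sum] at r1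
  have hSN0 : 0 ≤ ∑ χ ∈ S, (NN (LP χ) T (2 * T) : ℝ) :=
    Finset.sum_nonneg fun χ _ => Nat.cast_nonneg _
  have h1 := mul_le_mul_of_nonneg_right hconst hSN0
  have e1 : (2 - cH h - 74 * dl ^ 2 - ε) * ∑ χ ∈ S, (NN (LP χ) T (2 * T) : ℝ) =
      (2 - 74 * dl ^ 2) * ∑ χ ∈ S, (NN (LP χ) T (2 * T) : ℝ) -
        (cH h + ε) * ∑ χ ∈ S, (NN (LP χ) T (2 * T) : ℝ) := by ring
  rw [e1]
  linarith

/-- isolated zeros, cosets -/
theorem coset_iso (a ε : ℝ) (ha0 : 0 ≤ a) (ha1 : a < 1) (hε : 0 < ε) :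
    ∃ C ζ : ℝ, 1 ≤ C ∧ 0 < ζ ∧ ∀ (q : ℕ) [NeZero q] (H : Subgroup (ZMod q)ˣ)
      (χ₁ : DirichletCharacter ℂ q) (T : ℝ),
      C * (1 + Real.sqrt (Real.log q) + ((Nat.card H : ℝ) - 1) * (1 + Real.log q) ^ 2) ≤ T →
      (Nat.card H : ℝ) ≤ (q * T) ^ a →
      ((Nat.card H : ℝ) ≤ (q * T) ^ ζ ∨
        ∑ χ ∈ coset H χ₁, (Real.log q - Real.log χ.conductor) ≤
          ζ * Real.log (q * T) * ((coset H χ₁).card : ℝ)) →
      ∀ dl : ℝ, 0 < dl → dl ≤ 1 / 10 →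
      (2 - cH (1 - a) - 74 * dl ^ 2 - ε) *
        ∑ χ ∈ coset H χ₁, (NN (DirichletCharacter.LFunction χ) T (2 * T) : ℝ) ≤
        ∑ χ ∈ coset H χ₁, ((isoS (DirichletCharacter.LFunction χ) T (2 * T)
          (dl / Real.log (q * T))).ncard : ℝ) := by
  classical
  obtain ⟨Ca, hCa, hmsh⟩ := coset_msh
  obtain ⟨C0, ζ1, s, hC0, hζ1, hs0, hs1, hset⟩ := set_iso Ca (1 - a) ε hCa
    (by linarith) (by linarith) hε
  obtain ⟨C1, hC1, h1⟩ := hmsh a s ζ1 C0 ha0 ha1 hs0 hs1 hζ1 hC0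
  obtain ⟨C2, hC2, h2⟩ := cond_coset (ζ1 / 4) (by positivity)
  refine ⟨max C1 (Real.exp (2 * C2 / ζ1)), ζ1 / 8, le_max_of_le_left hC1, by positivity, ?_⟩
  intro q _ H χ₁ T hT hm hcase
  set C := max C1 (Real.exp (2 * C2 / ζ1)) with hC
  have hCC : 1 ≤ C := le_max_of_le_left hC1
  have hCT := one_le_of_height hCC q H hT
  have hT1 : 1 ≤ T := hCC.trans hCT
  have hT0 : 0 < T := by linarith
  have hq1 : (1 : ℝ) ≤ q := by exact_mod_cast (NeZero.one_le : 1 ≤ q)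
  have hq0 : (0 : ℝ) < q := by linarith
  have hlq : 0 ≤ Real.log q := Real.log_nonneg hq1
  have hm1 : (1 : ℝ) ≤ (Nat.card H : ℝ) := by exact_mod_cast Nat.card_pos
  have hT' : C1 * (1 + Real.sqrt (Real.log q) + ((Nat.card H : ℝ) - 1) * (1 + Real.log q) ^ 2) ≤
      T := by
    refine le_trans ?_ hT
    refine mul_le_mul_of_nonneg_right (le_max_left _ _) ?_
    have h1 := Real.sqrt_nonneg (Real.log q)
    have h2 : 0 ≤ ((Nat.card H : ℝ) - 1) * (1 + Real.log q) ^ 2 := by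
      have : 0 ≤ (Nat.card H : ℝ) - 1 := by linarith
      positivity
    linarith
  set ℒ : ℝ := Real.log (q * T) with hℒ
  have hexp : Real.exp (2 * C2 / ζ1) ≤ T := (le_max_right _ _).trans hCT
  have hℒ1 : 2 * C2 / ζ1 ≤ ℒ := by
    rw [hℒ, Real.le_log_iff_exp_le (by positivity)]
    exact hexp.trans (le_mul_of_one_le_left hT0.le hq1)
  have hC2ℒ : C2 ≤ ζ1 / 2 * ℒ := by
    rw [div_le_iff₀ hζ1] at hℒ1
    linarith
  have hℒ0 : 0 ≤ ℒ := by
    refine le_trans ?_ hℒ1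
    positivity
  have hqℒ : Real.log q ≤ ℒ := by
    rw [hℒ]
    exact Real.log_le_log hq0 (le_mul_of_one_le_right hq0.le hT1)
  have hcond : ∑ χ ∈ coset H χ₁, (Real.log q - Real.log χ.conductor) ≤
        ζ1 * Real.log (q * T) * ((coset H χ₁).card : ℝ) := by
    rw [← hℒ]
    rcases hcase with hc1 | hc1
    · refine (h2 q H χ₁).trans ?_
      refine mul_le_mul_of_nonneg_right ?_ (Nat.cast_nonneg _)
      have h3 : Real.log (Nat.card H) ≤ ζ1 / 8 * ℒ := by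
        refine (Real.log_le_log (by linarith) hc1).trans (le_of_eq ?_)
        rw [Real.log_rpow (by positivity)]
      have h4 : ζ1 / 4 * Real.log q ≤ ζ1 / 4 * ℒ := mul_le_mul_of_nonneg_left hqℒ (by positivity)
      linarith
    · refine hc1.trans ?_
      refine mul_le_mul_of_nonneg_right ?_ (Nat.cast_nonneg _)
      refine mul_le_mul_of_nonneg_right (by linarith) hℒ0
  obtain ⟨p1, p2, V, p3, p4, p5⟩ := h1 q H χ₁ T hT' hm
  exact hset q T V (coset H χ₁) p1 p2 p3 p4 hcond p5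

/-- isolated zeros, all characters modulo `q` -/
theorem all_iso (ε : ℝ) (hε : 0 < ε) :
    ∃ C : ℝ, 1 ≤ C ∧ ∀ (q : ℕ) [NeZero q] (T : ℝ), C * (1 + Real.sqrt (Real.log q)) ≤ T →
      ∀ dl : ℝ, 0 < dl → dl ≤ 1 / 10 →
      (2 - cH 1 - 74 * dl ^ 2 - ε) *
        ∑ χ : DirichletCharacter ℂ q, (NN (DirichletCharacter.LFunction χ) T (2 * T) : ℝ) ≤
        ∑ χ : DirichletCharacter ℂ q, ((isoS (DirichletCharacter.LFunction χ) T (2 * T)
          (dl / Real.log (q * T))).ncard : ℝ) := by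
  classical
  obtain ⟨C, ζ, hC, hζ, H⟩ := coset_iso 0 ε le_rfl (by norm_num) hε
  refine ⟨C, hC, ?_⟩
  intro q _ T hT dl hdl hdl1
  have hT1 : 1 ≤ T := by
    refine le_trans ?_ hT
    have := Real.sqrt_nonneg (Real.log q)
    nlinarith
  have hq1 : (1 : ℝ) ≤ q := by exact_mod_cast (NeZero.one_le : 1 ≤ q)
  have hqT : 1 ≤ (q : ℝ) * T := one_le_mul_of_one_le_of_one_le hq1 hT1
  have hcard : Nat.card (⊥ : Subgroup (ZMod q)ˣ) = 1 := Subgroup.card_bot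
  have hu : coset (⊥ : Subgroup (ZMod q)ˣ) (1 : DirichletCharacter ℂ q) = Finset.univ := by
    rw [Finset.eq_univ_iff_forall]
    intro χ
    rw [mem_coset]
    intro h hh
    rw [Subgroup.mem_bot] at hh
    rw [hh]
    simp
  have h1 := H q ⊥ 1 T (by rw [hcard]; simpa using hT) (by rw [hcard]; simp)
    (Or.inl (by rw [hcard, Nat.cast_one]; exact Real.one_le_rpow hqT hζ.le)) dl hdl hdl1
  rw [hu, sub_zero] at h1
  exact h1

/-- isolated zeros, single characters -/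
theorem single_iso (h ε : ℝ) (hh0 : 0 < h) (hh1 : h ≤ 1) (hε : 0 < ε) :
    ∃ C : ℝ, 1 ≤ C ∧ ∀ (q : ℕ) [NeZero q] (ψ : DirichletCharacter ℂ q) (T : ℝ),
      ψ.IsPrimitive → C ≤ T → (q * T) ^ h ≤ T → ∀ dl : ℝ, 0 < dl → dl ≤ 1 / 10 →
      (2 - cH h - 74 * dl ^ 2 - ε) * (NN (DirichletCharacter.LFunction ψ) T (2 * T) : ℝ) ≤
        ((isoS (DirichletCharacter.LFunction ψ) T (2 * T) (dl / Real.log (q * T))).ncard : ℝ) := by
  classical
  obtain ⟨Ca, hCa, hmsh⟩ := single_msh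
  obtain ⟨C0, ζ1, s, hC0, hζ1, hs0, hs1, hset⟩ := set_iso Ca h ε hCa hh0 hh1 hε
  obtain ⟨C1, hC1, h1⟩ := hmsh h s ζ1 C0 hh0 hh1 hs0 hs1 hζ1 hC0
  refine ⟨C1, hC1, ?_⟩
  intro q _ ψ T hprim hT hqT dl hdl hdl1
  obtain ⟨p1, V, p3, p4, p5⟩ := h1 q ψ T hT hqT
  have hT1 : 1 ≤ T := hC1.trans hT
  have hq1 : (1 : ℝ) ≤ q := by exact_mod_cast (NeZero.one_le : 1 ≤ q)
  have hcond : ∑ χ ∈ ({ψ} : Finset (DirichletCharacter ℂ q)),
      (Real.log q - Real.log χ.conductor) ≤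
      ζ1 * Real.log (q * T) * ((({ψ} : Finset (DirichletCharacter ℂ q)).card : ℕ) : ℝ) := by
    have hc : ψ.conductor = q := hprim
    rw [Finset.sum_singleton, hc, sub_self]
    have : 0 ≤ Real.log (q * T) := Real.log_nonneg (one_le_mul_of_one_le_of_one_le hq1 hT1)
    positivity
  have r1 := hset q T V {ψ} p1 (by simp) p3 p4 hcond p5 dl hdl hdl1
  rw [Finset.sum_singleton, Finset.sum_singleton] at r1
  exact r1

end Pool.Agent.J6H88.IZ
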