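import Pool.Agent.J6H88.IZ.Cl

/-!
# Isolated points, with a general symmetric kernel
-/

open scoped BigOperators ComplexConjugate

set_option autoImplicit false
set_option maxHeartbeats 4000000

namespace Pool.Agent.J6H88.IZ

open H370 TH803UC TH803CL

open Classical in
/-- the simple real points which are no exceptional points and have distance at least `d` from all
the other points which are no exceptional points -/
noncomputable def isoE (Z : Finset ℂ) (m : ℂ → ℕ) (ed : ℂ → Prop) (d : ℝ) : Finset ℂ :=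
  Z.filter (fun z => ¬ ed z ∧ z.im = 0 ∧ m z = 1 ∧ ∀ w ∈ Z, ¬ ed w → w ≠ z → d ≤ ‖z - w‖)

lemma conj_sub_self' (z : ℂ) : ‖(starRingEnd ℂ) z - z‖ = 2 * |z.im| := by
  have e1 : (starRingEnd ℂ) z - z = ((-(2 * z.im) : ℝ) : ℂ) * Complex.I := by
    apply Complex.ext
    · simp
    · simp; ring
  rw [e1, norm_mul, Complex.norm_I, mul_one, Complex.norm_real, Real.norm_eq_abs, abs_neg,
    abs_mul, abs_of_pos (by norm_num : (0 : ℝ) < 2)]

open Classical in
/-- **isolated simple real points, general kernel** -/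
theorem iso_K {E : Type*} [NormedAddCommGroup E] [InnerProductSpace ℂ E]
    (K : ℂ → ℂ → ℂ) (k : ℂ → E) (hk : ∀ z w, inner ℂ (k z) (k w) = K ((starRingEnd ℂ) z) w)
    (hsym : ∀ z w, K z w = K w z)
    (Z : Finset ℂ) (hZ : ∀ z ∈ Z, (starRingEnd ℂ) z ∈ Z) (m : ℂ → ℕ)
    (hm1 : ∀ z ∈ Z, 1 ≤ m z) (hmc : ∀ z ∈ Z, m ((starRingEnd ℂ) z) = m z)
    (ed : ℂ → Prop) (hedc : ∀ z, ed ((starRingEnd ℂ) z) ↔ ed z)
    {d η : ℝ} (hd : 0 < d) (hη : 0 ≤ η)
    (hK1 : ∀ z ∈ Z, ∀ w ∈ Z, ¬ ed z → ¬ ed w → ‖z - w‖ ≤ 6 * d → ‖K z w - 1‖ ≤ η)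
    (hK2 : ∀ z ∈ Z, -2 ≤ (K z z).re) :
    2 * (∑ z ∈ Z.filter (fun z => 0 ≤ z.im), cw m z) -
      8 * η * (∑ z ∈ Z.filter (fun z => 0 ≤ z.im), cw m z) -
      15 * (∑ z ∈ (Z.filter (fun z => 0 ≤ z.im)).filter ed, cw m z) ≤
      (∑ z ∈ Z, ∑ w ∈ Z, (m z : ℂ) * (m w : ℂ) * (K z w) ^ 2).re + (isoE Z m ed d).card := by
  set P := Z.filter (fun z => 0 ≤ z.im) with hP
  have hPm : ∀ z ∈ P, z ∈ Z ∧ 0 ≤ z.im := fun z hz => by rwa [hP, Finset.mem_filter] at hz
  set S := P.filter (fun z => ¬ ed z ∧ |z.im| < d ∧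
    ∃ w ∈ P, ¬ ed w ∧ w ≠ z ∧ |w.im| < d ∧ ‖z - w‖ < d) with hS
  have hSm : ∀ z ∈ S, z ∈ P ∧ ¬ ed z ∧ |z.im| < d ∧
      ∃ w ∈ P, ¬ ed w ∧ w ≠ z ∧ |w.im| < d ∧ ‖z - w‖ < d :=
    fun z hz => Finset.mem_filter.1 hz
  obtain ⟨ρ, hρS, hρd, hρ2⟩ := pairing S hd (by
    intro z hz
    obtain ⟨h1, h1e, h2, w, hw, hwe, hwz, hwi, hwd⟩ := hSm z hz
    refine ⟨w, Finset.mem_filter.2 ⟨hw, hwe, hwi, z, h1, h1e, Ne.symm hwz, h2, ?_⟩, hwz, hwd⟩
    rwa [norm_sub_rev])
  set π : ℂ → ℂ := fun z => if z ∈ S then ρ z else z with hπ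
  have hπS : ∀ z ∈ S, π z = ρ z := fun z hz => by simp only [hπ]; rw [if_pos hz]
  have hπN : ∀ z, z ∉ S → π z = z := fun z hz => by simp only [hπ]; rw [if_neg hz]
  -- points of one cluster
  have hclose : ∀ z w, π z = π w → z = w ∨ (z ∈ S ∧ w ∈ S ∧ ‖z - w‖ < 4 * d) := by
    intro z w h
    by_cases hz : z ∈ S
    · by_cases hw : w ∈ S
      · right
        rw [hπS z hz, hπS w hw] at h
        refine ⟨hz, hw, ?_⟩
        have a1 := hρd z hz
        have a2 := hρd w hw
        rw [norm_sub_rev] at a2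
        calc ‖z - w‖ = ‖(z - ρ z) + (ρ w - w)‖ := by congr 1; rw [h]; ring
          _ ≤ ‖z - ρ z‖ + ‖ρ w - w‖ := norm_add_le _ _
          _ < 4 * d := by linarith
      · exfalso
        rw [hπS z hz, hπN w hw] at h
        exact hw (h ▸ hρS z hz)
    · by_cases hw : w ∈ S
      · exfalso
        rw [hπN z hz, hπS w hw] at h
        exact hz (h ▸ hρS w hw)
      · left
        rwa [hπN z hz, hπN w hw] at h
  have hE : ∀ z ∈ Z, ∀ w ∈ Z, 0 ≤ z.im → 0 ≤ w.im → π z = π w → ed z → z = w := by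
    intro z _ w _ _ _ h he
    rcases hclose z w h with h | ⟨hz, -, -⟩
    · exact h
    · exact absurd he (hSm z hz).2.1
  have hA : ∀ z ∈ Z, ∀ w ∈ Z, 0 ≤ z.im → 0 ≤ w.im → π z = π w → ¬ ed z → ¬ ed w →
      (K ((starRingEnd ℂ) z) z).re - 2 * η ≤ (K ((starRingEnd ℂ) z) w).re := by
    intro z hzZ w hwZ _ _ h hze hwe
    rcases hclose z w h with rfl | ⟨hz, hw, hzw⟩
    · linarith
    · obtain ⟨-, -, b1, -⟩ := hSm z hz
      have hzc : ¬ ed ((starRingEnd ℂ) z) := fun h => hze ((hedc z).1 h)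
      have c1 : ‖(starRingEnd ℂ) z - z‖ ≤ 6 * d := by rw [conj_sub_self']; linarith
      have c2 : ‖(starRingEnd ℂ) z - w‖ ≤ 6 * d := by
        calc ‖(starRingEnd ℂ) z - w‖ = ‖((starRingEnd ℂ) z - z) + (z - w)‖ := by congr 1; ring
          _ ≤ ‖(starRingEnd ℂ) z - z‖ + ‖z - w‖ := norm_add_le _ _
          _ ≤ 6 * d := by rw [conj_sub_self']; linarith
      have d1 := (Complex.abs_re_le_norm _).trans (hK1 _ (hZ z hzZ) _ hzZ hzc hze c1)
      have d2 := (Complex.abs_re_le_norm _).trans (hK1 _ (hZ z hzZ) _ hwZ hzc hwe c2)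
      rw [Complex.sub_re, Complex.one_re] at d1 d2
      linarith [(abs_le.1 d1).2, (abs_le.1 d2).1]
  have hB : ∀ z ∈ Z, ∀ w ∈ Z, 0 ≤ z.im → 0 ≤ w.im → π z = π w → ¬ ed z → ¬ ed w →
      1 - η ≤ (K ((starRingEnd ℂ) z) ((starRingEnd ℂ) w)).re := by
    intro z hzZ w hwZ _ _ h hze hwe
    have hzc : ¬ ed ((starRingEnd ℂ) z) := fun h => hze ((hedc z).1 h)
    have hwc : ¬ ed ((starRingEnd ℂ) w) := fun h => hwe ((hedc w).1 h)
    have c2 : ‖(starRingEnd ℂ) z - (starRingEnd ℂ) w‖ ≤ 6 * d := by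
      rcases hclose z w h with rfl | ⟨hz, hw, hzw⟩
      · rw [sub_self, norm_zero]; positivity
      · rw [← map_sub, RCLike.norm_conj]; linarith
    have d2 := (Complex.abs_re_le_norm _).trans (hK1 _ (hZ z hzZ) _ (hZ w hwZ) hzc hwc c2)
    rw [Complex.sub_re, Complex.one_re] at d2
    linarith [(abs_le.1 d2).1]
  have hmain := cluster_K K k hk hsym Z hZ m hm1 hmc π ed hη hE hA hB hK2
  rw [← hP] at hmain
  have hcard : (((P.image π).filter (fun a => Wc Z m π a = 1)).card : ℝ) ≤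
      (isoE Z m ed d).card + ∑ z ∈ P.filter ed, cw m z := by
    have hsub : (P.image π).filter (fun a => Wc Z m π a = 1) ⊆ isoE Z m ed d ∪ P.filter ed := by
      intro a ha
      rw [Finset.mem_filter, Finset.mem_image] at ha
      obtain ⟨⟨z, hz, rfl⟩, hW⟩ := ha
      have hzS : z ∉ S := by
        intro hzS
        obtain ⟨u, hu, v, hv, huv, hu2, hv2⟩ := hρ2 z hzS
        have huP := (hSm u hu).1
        have hvP := (hSm v hv).1
        have h1 : cw m u + cw m v ≤ Wc Z m π (π z) := by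
          unfold Wc
          rw [← Finset.sum_pair huv]
          refine Finset.sum_le_sum_of_subset_of_nonneg ?_ fun w _ _ => cw_nonneg m w
          intro w hw
          rw [Finset.mem_insert, Finset.mem_singleton] at hw
          rw [Finset.mem_filter]
          rcases hw with rfl | rfl
          · exact ⟨huP, by rw [hπS _ hu, hπS z hzS, hu2]⟩
          · exact ⟨hvP, by rw [hπS _ hv, hπS z hzS, hv2]⟩
        have h2 := cw_ge hm1 (hPm u huP).1
        have h3 := cw_ge hm1 (hPm v hvP).1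
        linarith
      have hπz := hπN z hzS
      rw [hπz] at hW ⊢
      rw [Finset.mem_union]
      by_cases hze : ed z
      · right
        exact Finset.mem_filter.2 ⟨hz, hze⟩
      left
      have h1 : cw m z ≤ 1 := by
        have := Wc_ge (m := m) (π := π) hz
        rw [hπz, hW] at this
        exact this
      have h2 : z.im = 0 := by
        by_contra hne
        have := cw_two hm1 (hPm z hz).1 hne
        linarith
      have h3 : m z = 1 := by
        have h4 : cw m z = m z := by unfold cw; rw [if_pos h2]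
        rw [h4] at h1
        have h5 : m z ≤ 1 := by exact_mod_cast h1
        have := hm1 z (hPm z hz).1
        omega
      unfold isoE
      rw [Finset.mem_filter]
      refine ⟨(hPm z hz).1, hze, h2, h3, ?_⟩
      -- isolated in the upper half
      have hup : ∀ w ∈ P, ¬ ed w → w ≠ z → d ≤ ‖z - w‖ := by
        intro w hw hwe hwz
        by_contra hlt
        push Not at hlt
        apply hzS
        rw [hS, Finset.mem_filter]
        refine ⟨hz, hze, by rw [h2, abs_zero]; exact hd, w, hw, hwe, hwz, ?_, hlt⟩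
        have h6 : w.im = -(z - w).im := by rw [Complex.sub_im, h2]; ring
        rw [h6, abs_neg]
        exact (Complex.abs_im_le_norm _).trans_lt hlt
      intro w hw hwe hwz
      by_cases hw0 : 0 ≤ w.im
      · exact hup w (Finset.mem_filter.2 ⟨hw, hw0⟩) hwe hwz
      · have h7 : (starRingEnd ℂ) z = z := Complex.conj_eq_iff_im.mpr h2
        have h8 := hup ((starRingEnd ℂ) w) (Finset.mem_filter.2 ⟨hZ w hw, by
          rw [Complex.conj_im]; linarith [not_le.1 hw0]⟩) (fun h => hwe ((hedc w).1 h)) (by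
            intro h
            apply hwz
            have := congrArg (starRingEnd ℂ) h
            rwa [Complex.conj_conj, h7] at this)
        rwa [← h7, ← map_sub, RCLike.norm_conj] at h8
    have h1 : (((P.image π).filter (fun a => Wc Z m π a = 1)).card : ℝ) ≤
        (isoE Z m ed d).card + ((P.filter ed).card : ℝ) := by
      exact_mod_cast (Finset.card_le_card hsub).trans (Finset.card_union_le _ _)
    have h2 : ((P.filter ed).card : ℝ) ≤ ∑ z ∈ P.filter ed, cw m z := by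
      rw [Finset.card_eq_sum_ones]
      push_cast
      refine Finset.sum_le_sum fun z hz => ?_
      exact cw_ge hm1 (hPm z (Finset.mem_filter.1 hz).1).1
    linarith
  linarith

end Pool.Agent.J6H88.IZ
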