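import Pool.Agent.J6H88.IZ.Iso
import Pool.Agent.H385R2.PerChi

/-!
# The smoothed kernel
-/

open Complex Filter Topology Set MeasureTheory
open scoped BigOperators ComplexConjugate
open H370 (zset mult NN Nd Ns GoodL)

set_option autoImplicit false
set_option maxHeartbeats 4000000

namespace Pool.Agent.J6H88.IZ

open H385 H385.PerChi

lemma root_exists (x : ℂ) : ∃ s : ℂ, s ^ 2 = x ∧ 0 ≤ s.re := by
  obtain ⟨s, hs⟩ : ∃ s : ℂ, s ^ 2 = x := IsAlgClosed.exists_pow_nat_eq x two_pos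
  rcases le_total 0 s.re with h | h
  · exact ⟨s, hs, h⟩
  · exact ⟨-s, by rw [neg_sq, hs], by rw [Complex.neg_re]; linarith⟩

/-- a square root with nonnegative real part -/
noncomputable def rt (x : ℂ) : ℂ := Classical.choose (root_exists x)

lemma rt_sq (x : ℂ) : rt x ^ 2 = x := (Classical.choose_spec (root_exists x)).1

lemma rt_re (x : ℂ) : 0 ≤ (rt x).re := (Classical.choose_spec (root_exists x)).2

lemma rt_near (x : ℂ) : ‖rt x - 1‖ ≤ ‖x - 1‖ := by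
  have h1 : x - 1 = (rt x - 1) * (rt x + 1) := by
    have := rt_sq x
    linear_combination -this
  rw [h1, norm_mul]
  have h2 : 1 ≤ ‖rt x + 1‖ := by
    have h3 := Complex.re_le_norm (rt x + 1)
    rw [Complex.add_re, Complex.one_re] at h3
    linarith [rt_re x]
  exact le_mul_of_one_le_right (norm_nonneg _) h2

lemma rt_real {x : ℂ} (h1 : x.im = 0) (h2 : 0 ≤ x.re) : (rt x).im = 0 := by
  have h := rt_sq x
  by_contra hne
  have h3 : (rt x ^ 2).im = 0 := by rw [h, h1]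
  have h4 : 0 ≤ (rt x ^ 2).re := by rw [h]; exact h2
  rw [sq, Complex.mul_im] at h3
  rw [sq, Complex.mul_re] at h4
  have h5 : (rt x).re = 0 := by
    have : (rt x).im * (rt x).re = 0 := by linarith
    rcases mul_eq_zero.1 this with h | h
    · exact absurd h hne
    · exact h
  rw [h5] at h4
  have := mul_self_pos.2 hne
  linarith

/-- square root of the smooth cut-off -/
noncomputable def gg (T : ℝ) (z : ℂ) : ℂ :=
  if 0 ≤ z.im then rt (cc T z) else (starRingEnd ℂ) (rt (cc T ((starRingEnd ℂ) z)))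

lemma gg_conj (T : ℝ) (hT : 0 ≤ T) (z : ℂ) : gg T ((starRingEnd ℂ) z) = (starRingEnd ℂ) (gg T z) := by
  unfold gg
  rcases lt_trichotomy z.im 0 with h | h | h
  · rw [if_pos (by rw [Complex.conj_im]; linarith), if_neg (by linarith), Complex.conj_conj]
  · have hz : (starRingEnd ℂ) z = z := Complex.conj_eq_iff_im.mpr h
    rw [hz, if_pos h.ge, if_pos h.ge]
    have hzr : z = ((z.re : ℝ) : ℂ) := by
      apply Complex.ext
      · simp
      · simp [h]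
    have h4 := cc_real T z.re hT
    rw [← hzr] at h4
    exact (Complex.conj_eq_iff_im.mpr (rt_real h4.1 h4.2.1)).symm
  · rw [if_neg (by rw [Complex.conj_im]; linarith), if_pos h.le, Complex.conj_conj]

lemma gg_sq (T : ℝ) (z : ℂ) : gg T z ^ 2 = cc T z := by
  unfold gg
  split_ifs
  · exact rt_sq _
  · rw [← map_pow, rt_sq, cc_conj, Complex.conj_conj]

lemma gg_near (T : ℝ) (z : ℂ) : ‖gg T z - 1‖ ≤ ‖cc T z - 1‖ := by
  unfold gg
  split_ifs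
  · exact rt_near _
  · have h1 : (starRingEnd ℂ) (rt (cc T ((starRingEnd ℂ) z))) - 1 =
        (starRingEnd ℂ) (rt (cc T ((starRingEnd ℂ) z)) - 1) := by rw [map_sub, map_one]
    have h2 : cc T z - 1 = (starRingEnd ℂ) (cc T ((starRingEnd ℂ) z) - 1) := by
      rw [map_sub, map_one, cc_conj, Complex.conj_conj]
    rw [h1, h2, RCLike.norm_conj, RCLike.norm_conj]
    exact rt_near _

/-- the kernel -/
noncomputable def KK (γ Λ T : ℝ) (z w : ℂ) : ℂ := gg T z * gg T w * phiw γ Λ (z - w)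

lemma KK_sym (γ Λ T : ℝ) (z w : ℂ) : KK γ Λ T z w = KK γ Λ T w z := by
  unfold KK
  rw [← phiw_even γ Λ (z - w), neg_sub]
  ring

lemma KK_diag (γ : ℝ) (h0 : 0 < γ) (hπ : γ < Real.pi) (Λ T : ℝ) (z : ℂ) :
    KK γ Λ T z z = cc T z := by
  unfold KK
  rw [sub_self, phiw_zero γ h0 hπ, mul_one, ← sq, gg_sq]

lemma KK_sq (γ Λ T : ℝ) (z w : ℂ) :
    KK γ Λ T z w ^ 2 = cc T z * cc T w * phiw γ Λ (z - w) ^ 2 := by
  unfold KK
  rw [mul_pow, mul_pow, gg_sq, gg_sq]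

lemma KK_gram (γ : ℝ) (h0 : 0 < γ) (hπ : γ < Real.pi) (Λ T : ℝ) (hT : 0 ≤ T) :
    ∃ (E : Type) (_ : NormedAddCommGroup E) (_ : InnerProductSpace ℂ E)
    (k : ℂ → E), ∀ z w, inner ℂ (k z) (k w) = KK γ Λ T ((starRingEnd ℂ) z) w := by
  obtain ⟨E, i1, i2, k, hk⟩ := gram_w γ h0 hπ Λ
  refine ⟨E, i1, i2, fun z => gg T z • k z, fun z w => ?_⟩
  rw [inner_smul_left, inner_smul_right, hk, ← gg_conj T hT]
  unfold KK
  rw [← phiw_even γ Λ (w - (starRingEnd ℂ) z), neg_sub]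
  ring

/-- the cosine window is a window -/
lemma win_gw (γ : ℝ) (h0 : 0 < γ) (hπ : γ < Real.pi) : H295SI.Win (gw γ) where
  cont := WinAux.cont γ
  nonneg := fun x h1 h2 => gw_nonneg γ h0 hπ x h1 h2
  even := fun x => by unfold gw; rw [mul_neg, Real.cos_neg]
  mass := by
    have h := kapw_zero γ h0 hπ
    unfold kapw at h
    have h0' : ∀ x : ℝ, (gw γ x : ℂ) * cexp (I * 0 * x) = ((gw γ x : ℝ) : ℂ) := by
      intro x; simp
    simp_rw [h0'] at h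
    rw [intervalIntegral.integral_ofReal] at h
    exact_mod_cast h

lemma phiw_one (γ : ℝ) (h0 : 0 < γ) (hπ : γ < Real.pi) {Λ L δ : ℝ} (hΛ : 0 ≤ Λ) (hΛL : Λ ≤ L)
    (hL : 10 ≤ L) (hδ : 0 < δ) (hδ1 : δ ≤ 1 / 3) {u : ℂ} (hu : ‖u‖ ≤ 6 * (δ / L)) :
    ‖phiw γ Λ u - 1‖ ≤ 37 / 4 * δ ^ 2 := by
  have hL0 : 0 < L := by linarith
  have e : phiw γ Λ u = H295SI.phiG (gw γ) Λ u := rfl
  rw [e]
  refine (TH803CL.phi_one (win_gw γ h0 hπ) hΛ hΛL hL (R := 6 * δ) (by linarith) ?_).trans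
    (by nlinarith [sq_nonneg δ])
  calc ‖u‖ * L ≤ 6 * (δ / L) * L := by gcongr
    _ = 6 * δ := by field_simp

/-- the kernel near the diagonal -/
lemma KK_near (γ : ℝ) (h0 : 0 < γ) (hπ : γ < Real.pi) {Λ L δ T κ : ℝ} (hΛ : 0 ≤ Λ) (hΛL : Λ ≤ L)
    (hL : 10 ≤ L) (hδ : 0 < δ) (hδ1 : δ ≤ 1 / 10) (hκ : 3 ≤ κ) {z w : ℂ} (hz : |z.im| ≤ 1 / 2)
    (hw : |w.im| ≤ 1 / 2) (hz1 : T + κ ≤ z.re) (hz2 : z.re ≤ 2 * T - κ) (hw1 : T + κ ≤ w.re)
    (hw2 : w.re ≤ 2 * T - κ) (hu : ‖z - w‖ ≤ 6 * (δ / L)) :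
    ‖KK γ Λ T z w - 1‖ ≤ 37 / 4 * δ ^ 2 + 12 * Real.exp (-κ ^ 2 / 2) := by
  set e := Real.exp (-κ ^ 2 / 2) with he
  have he0 : 0 < e := Real.exp_pos _
  have he1 : 2 * e ≤ 1 := by
    have h1 : -κ ^ 2 / 2 ≤ -1 := by nlinarith
    have h2 : e ≤ Real.exp (-1) := Real.exp_le_exp.2 h1
    have h3 : Real.exp (-1) ≤ 1 / 2 := by
      have := Real.exp_one_gt_d9
      rw [Real.exp_neg, inv_eq_one_div, div_le_div_iff₀ (Real.exp_pos _) (by norm_num)]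
      linarith
    linarith
  have a1 := (gg_near T z).trans (cc_near T κ (by linarith) z hz hz1 hz2)
  have a2 := (gg_near T w).trans (cc_near T κ (by linarith) w hw hw1 hw2)
  rw [← he] at a1 a2
  have a3 := phiw_one γ h0 hπ hΛ hΛL hL hδ (by linarith) hu
  have a3' : ‖phiw γ Λ (z - w)‖ ≤ 2 := by
    calc ‖phiw γ Λ (z - w)‖ = ‖(phiw γ Λ (z - w) - 1) + 1‖ := by congr 1; ring
      _ ≤ ‖phiw γ Λ (z - w) - 1‖ + ‖(1 : ℂ)‖ := norm_add_le _ _
      _ ≤ 2 := by rw [norm_one]; nlinarith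
  have a2' : ‖gg T w‖ ≤ 2 := by
    calc ‖gg T w‖ = ‖(gg T w - 1) + 1‖ := by congr 1; ring
      _ ≤ ‖gg T w - 1‖ + ‖(1 : ℂ)‖ := norm_add_le _ _
      _ ≤ 2 := by rw [norm_one]; linarith
  have e1 : KK γ Λ T z w - 1 = (gg T z - 1) * (gg T w * phiw γ Λ (z - w)) +
      (gg T w - 1) * phiw γ Λ (z - w) + (phiw γ Λ (z - w) - 1) := by
    unfold KK; ring
  rw [e1]
  calc _ ≤ ‖(gg T z - 1) * (gg T w * phiw γ Λ (z - w))‖ + ‖(gg T w - 1) * phiw γ Λ (z - w)‖ +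
        ‖phiw γ Λ (z - w) - 1‖ := norm_add₃_le
    _ ≤ (2 * e) * (2 * 2) + (2 * e) * 2 + 37 / 4 * δ ^ 2 := by
        rw [norm_mul, norm_mul, norm_mul]
        gcongr
    _ = _ := by ring

end Pool.Agent.J6H88.IZ
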