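import Pool.Agent.J6H88.IZ.Ker

/-!
# Isolated zeros of one L-function, with constants uniform in the conductor
-/

open Complex Filter Topology Set MeasureTheory
open scoped BigOperators ComplexConjugate
open H370 (zset mult NN Nd Ns GoodL)

set_option autoImplicit false
set_option maxHeartbeats 4000000

namespace Pool.Agent.J6H88.IZ

open H385 H385.PerChi

/-- simple zeros on the critical line with ordinate in `(T₁, T₂]` which have distance at least `d`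
from all the other zeros in the open critical strip -/
def isoS (F : ℂ → ℂ) (T₁ T₂ d : ℝ) : Set ℂ :=
  {s : ℂ | s ∈ zset F T₁ T₂ ∧ s.re = 1 / 2 ∧ mult F s = 1 ∧
    ∀ s' : ℂ, F s' = 0 → 0 < s'.re → s'.re < 1 → s' ≠ s → d ≤ ‖s - s'‖}

/-- points near the ends -/
def edg (T κ : ℝ) (z : ℂ) : Prop := z.re ≤ T + κ ∨ 2 * T - κ < z.re

lemma zz_dist' (s s' : ℂ) : ‖zz s - zz s'‖ = ‖s - s'‖ := by
  have : zz s - zz s' = -I * (s - s') := by unfold zz; ring
  rw [this, norm_mul, norm_neg, Complex.norm_I, one_mul]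

open Classical in
theorem iso_trace (γ : ℝ) (h0 : 0 < γ) (hπ : γ < Real.pi) {F : ℂ → ℂ} (hF : GoodL F)
    (T κ Λ L δ V1 V2 : ℝ) (hΛ : 0 < Λ) (hΛL : Λ ≤ L) (hL : 10 ≤ L) (hδ : 0 < δ) (hδ1 : δ ≤ 1 / 10)
    (hκ : 3 ≤ κ) (hT : 0 ≤ T) (hV : 1 ≤ V1) (hfin : (zset F V1 V2).Finite) :
    2 * (∑ s ∈ hfin.toFinset, (mult F s : ℝ)) -
      8 * (37 / 4 * δ ^ 2 + 12 * Real.exp (-κ ^ 2 / 2)) * (∑ s ∈ hfin.toFinset, (mult F s : ℝ)) -
      15 * (∑ s ∈ hfin.toFinset, if edg T κ (zz s) then (mult F s : ℝ) else 0) ≤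
      (2 / (Real.sqrt Real.pi * Λ)) * (∫ u in (0 : ℝ)..Λ, Rw γ (u / Λ) *
          ∫ t : ℝ, ‖BB F V1 V2 T u t‖ ^ 2) +
      ((hfin.toFinset.filter (fun s => ¬ edg T κ (zz s) ∧ s.re = 1 / 2 ∧ mult F s = 1 ∧
        ∀ s' ∈ hfin.toFinset, ¬ edg T κ (zz s') → s' ≠ s → δ / L ≤ ‖s - s'‖)).card : ℝ) := by
  have hL0 : 0 < L := by linarith
  set Zf := hfin.toFinset with hZf
  have hmem : ∀ {s}, s ∈ Zf ↔ s ∈ zset F V1 V2 := by
    intro s; rw [hZf, Set.Finite.mem_toFinset]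
  set Z := Zf.image zz with hZdef
  have hinj : Set.InjOn zz (Zf : Set ℂ) := fun s _ s' _ h => zz_inj h
  have hZ : ∀ z ∈ Z, (starRingEnd ℂ) z ∈ Z := by
    intro z hz
    obtain ⟨s, hs, rfl⟩ := Finset.mem_image.mp hz
    rw [← zz_refl]
    exact Finset.mem_image_of_mem _ (hmem.2 (zset_refl hF hV (hmem.1 hs)))
  set m : ℂ → ℕ := fun z => mult F (1 / 2 + I * z) with hm
  have hmzz : ∀ s, m (zz s) = mult F s := fun s => by simp only [hm]; rw [zz_spec]
  have hm1 : ∀ z ∈ Z, 1 ≤ m z := by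
    intro z hz
    obtain ⟨s, hs, rfl⟩ := Finset.mem_image.mp hz
    rw [hmzz]
    have := hmem.1 hs
    exact H370.Loc.mult_pos' hF (by linarith [this.2.2.1]) this.2.2.2.2
  have hmc : ∀ z ∈ Z, m ((starRingEnd ℂ) z) = m z := by
    intro z hz
    obtain ⟨s, hs, rfl⟩ := Finset.mem_image.mp hz
    obtain ⟨h1, h2, h3, h4, h5⟩ := hmem.1 hs
    rw [← zz_refl, hmzz, hmzz, mult_refl hF h1 h2 (by linarith)]
  have hac : ∀ z ∈ Z, aw F T ((starRingEnd ℂ) z) = (starRingEnd ℂ) (aw F T z) := by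
    intro z hz
    obtain ⟨s, hs, rfl⟩ := Finset.mem_image.mp hz
    obtain ⟨h1, h2, h3, h4, h5⟩ := hmem.1 hs
    rw [← zz_refl, aw_zz, aw_zz, map_mul, Complex.conj_natCast, cc_conj, zz_refl,
      mult_refl hF h1 h2 (by linarith)]
  have him : ∀ z ∈ Z, |z.im| ≤ 1 / 2 := by
    intro z hz
    obtain ⟨s, hs, rfl⟩ := Finset.mem_image.mp hz
    have := hmem.1 hs
    rw [zz_im, abs_le]; constructor <;> linarith [this.1, this.2.1]
  have hedc : ∀ z, edg T κ ((starRingEnd ℂ) z) ↔ edg T κ z := by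
    intro z; unfold edg; rw [Complex.conj_re]
  obtain ⟨E, i1, i2, k, hk⟩ := KK_gram γ h0 hπ Λ T hT
  set e := Real.exp (-κ ^ 2 / 2) with he
  have he0 : 0 < e := Real.exp_pos _
  have hmain := iso_K (KK γ Λ T) k hk (KK_sym γ Λ T) Z hZ m hm1 hmc (edg T κ) hedc
    (d := δ / L) (η := 37 / 4 * δ ^ 2 + 12 * e) (by positivity) (by positivity) (by
      intro z hz w hw hze hwe hzw
      unfold edg at hze hwe
      push Not at hze hwe
      exact KK_near γ h0 hπ hΛ.le hΛL hL hδ hδ1 hκ (him z hz) (him w hw) hze.1.le hze.2 hwe.1.le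
        hwe.2 hzw) (by
      intro z hz
      rw [KK_diag γ h0 hπ]
      have h1 := cc_bound T hT z (him z hz)
      have h2 := Complex.abs_re_le_norm (cc T z)
      linarith [neg_abs_le (cc T z).re])
  -- the quadratic form
  have hq : (∑ z ∈ Z, ∑ w ∈ Z, (m z : ℂ) * (m w : ℂ) * (KK γ Λ T z w) ^ 2).re =
      (2 / (Real.sqrt Real.pi * Λ)) * (∫ u in (0 : ℝ)..Λ, Rw γ (u / Λ) *
          ∫ t : ℝ, ‖BB F V1 V2 T u t‖ ^ 2) := by
    have e1 : ∑ z ∈ Z, ∑ w ∈ Z, (m z : ℂ) * (m w : ℂ) * (KK γ Λ T z w) ^ 2 =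
        ∑ z ∈ Z, ∑ w ∈ Z, aw F T z * aw F T w * (phiw γ Λ (z - w)) ^ 2 := by
      refine Finset.sum_congr rfl fun z _ => Finset.sum_congr rfl fun w _ => ?_
      rw [KK_sq]
      unfold aw
      ring
    rw [e1, quad_form γ Λ hΛ (kapw_sq γ h0 hπ) (Rw_cont γ h0 hπ) (Rw_even γ) Z hZ (aw F T) hac]
    have hBB : ∀ u t : ℝ, ∑ z ∈ Z, aw F T z * (cexp (I * u * z) * cexp (-(z - t) ^ 2 / 2)) =
        BB F V1 V2 T u t := by
      intro u t
      unfold BB
      rw [finsum_mem_eq_finite_toFinset_sum _ hfin, hZdef, Finset.sum_image hinj]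
      refine Finset.sum_congr rfl fun s _ => ?_
      rw [aw_zz]
    simp_rw [hBB]
  rw [hq] at hmain
  -- the sums
  have s1 : ∑ z ∈ Z.filter (fun z => 0 ≤ z.im), TH803UC.cw m z = ∑ s ∈ Zf, (mult F s : ℝ) := by
    have h := TH803UC.split_real Z hZ m hmc (fun _ => 1) (fun _ => rfl)
    simp only [mul_one] at h
    rw [← h, hZdef, Finset.sum_image hinj]
    exact Finset.sum_congr rfl fun s _ => by rw [hmzz]
  have s2 : ∑ z ∈ (Z.filter (fun z => 0 ≤ z.im)).filter (edg T κ), TH803UC.cw m z =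
      ∑ s ∈ Zf, if edg T κ (zz s) then (mult F s : ℝ) else 0 := by
    have h := TH803UC.split_real Z hZ m hmc (fun z => if edg T κ z then 1 else 0)
      (fun z => by simp only [hedc z])
    rw [Finset.sum_filter]
    have e1 : ∑ z ∈ Z.filter (fun z => 0 ≤ z.im), (if edg T κ z then TH803UC.cw m z else 0) =
        ∑ z ∈ Z.filter (fun z => 0 ≤ z.im), TH803UC.cw m z * (if edg T κ z then 1 else 0) := by
      refine Finset.sum_congr rfl fun z _ => ?_
      split_ifs <;> simp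
    rw [e1, ← h, hZdef, Finset.sum_image hinj]
    refine Finset.sum_congr rfl fun s _ => ?_
    rw [hmzz]
    split_ifs <;> simp
  have s3 : (isoE Z m (edg T κ) (δ / L)).card ≤ (Zf.filter (fun s => ¬ edg T κ (zz s) ∧
      s.re = 1 / 2 ∧ mult F s = 1 ∧
        ∀ s' ∈ Zf, ¬ edg T κ (zz s') → s' ≠ s → δ / L ≤ ‖s - s'‖)).card := by
    refine le_trans ?_ (Finset.card_image_le (f := zz))
    apply Finset.card_le_card
    intro z hz
    unfold isoE at hz
    rw [Finset.mem_filter] at hz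
    obtain ⟨hz1, hz2, hz3, hz4, hz5⟩ := hz
    obtain ⟨s, hs, rfl⟩ := Finset.mem_image.mp hz1
    rw [hmzz] at hz4
    rw [zz_im] at hz3
    refine Finset.mem_image_of_mem _ (Finset.mem_filter.2 ⟨hs, hz2, by linarith, hz4, ?_⟩)
    intro s' hs' hne' hne
    have := hz5 (zz s') (Finset.mem_image_of_mem _ hs') hne' (fun h => hne (zz_inj h))
    rwa [zz_dist'] at this
  have s3' : ((isoE Z m (edg T κ) (δ / L)).card : ℝ) ≤ ((Zf.filter (fun s => ¬ edg T κ (zz s) ∧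
      s.re = 1 / 2 ∧ mult F s = 1 ∧
        ∀ s' ∈ Zf, ¬ edg T κ (zz s') → s' ≠ s → δ / L ≤ ‖s - s'‖)).card : ℝ) := by
    exact_mod_cast s3
  rw [s1, s2] at hmain
  linarith

end Pool.Agent.J6H88.IZ
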