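import Pool.Agent.J6H88.IZ.Per
import Pool.Agent.H385R2.FamAbs

/-!
# Isolated zeros of one L-function and in families
-/

open Complex Filter Topology Set MeasureTheory
open scoped BigOperators ComplexConjugate
open H370 (zset mult NN Nd Ns GoodL)

set_option autoImplicit false
set_option maxHeartbeats 4000000

namespace Pool.Agent.J6H88.IZ

open H385 H385.PerChi

theorem per_iso (γ : ℝ) (h0 : 0 < γ) (hπ : γ < Real.pi) (A : ℝ) (hA : 1 ≤ A) :
    ∃ C : ℝ, 0 < C ∧ ∀ (Q : ℝ) (F : ℂ → ℂ) (a : ℕ → ℂ), 1 ≤ Q → GoodU A Q F a →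
    ∀ T κ Λ L δ V1 V2 : ℝ, 3 ≤ κ → 8 * κ ≤ T → 1 ≤ Λ → Λ ≤ L → 10 ≤ L → 0 < δ → δ ≤ 1 / 10 →
      T - 3 * κ ≤ V1 → V1 ≤ T - 3 * κ + 1 →
      2 * T + 3 * κ - 1 ≤ V2 → V2 ≤ 2 * T + 3 * κ →
      (2 - 74 * δ ^ 2) * (NN F T (2 * T) : ℝ) - ((isoS F T (2 * T) (δ / L)).ncard : ℝ) ≤
        (2 / (Real.sqrt Real.pi * Λ)) * (∫ u in (0 : ℝ)..Λ, Rw γ (u / Λ) *
          ∫ t : ℝ, ‖BB F V1 V2 T u t‖ ^ 2)
        + C * (κ + T * Real.exp (-κ ^ 2 / 2)) * Real.log (Q * T) := by
  classical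
  obtain ⟨C0, hC0, hcount⟩ := zcount_long A hA
  refine ⟨400 * C0, by positivity, ?_⟩
  intro Q F a hQ hFU T κ Λ L δ V1 V2 hκ hκT hΛ hΛL hL hδ hδ1 hV1 hV1' hV2 hV2'
  have hF := goodL hA hQ hFU
  have hV1pos : 15 ≤ V1 := by linarith
  have hT24 : 24 ≤ T := by linarith
  have hL0 : 0 < L := by linarith
  have hfinV : (zset F V1 V2).Finite := H370.zset_finite hF V1 V2 (by linarith)
  have hfin : (zset F T (2 * T)).Finite := H370.zset_finite hF T _ (by linarith)
  have htr := iso_trace γ h0 hπ hF T κ Λ L δ V1 V2 (by linarith) hΛL hL hδ hδ1 hκ (by linarith)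
    (by linarith) hfinV
  set e := Real.exp (-κ ^ 2 / 2) with he
  have he0 : 0 < e := Real.exp_pos _
  -- counts
  have hNV := hcount Q F a hQ hFU V1 V2 (by linarith) (by linarith)
  have hNa := hcount Q F a hQ hFU V1 (T + 2 * κ) (by linarith) (by linarith)
  have hNb := hcount Q F a hQ hFU (2 * T - 2 * κ) V2 (by linarith) (by linarith)
  set ℒ := Real.log (Q * T) with hℒ
  have hℒ0 : 0 ≤ ℒ := Real.log_nonneg (by nlinarith)
  have l1 : Real.log (Q * V2) ≤ 2 * ℒ := log_bd hQ (by linarith) (by linarith) (by linarith)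
  have l2 : Real.log (Q * (T + 2 * κ)) ≤ 2 * ℒ :=
    log_bd hQ (by linarith) (by linarith) (by linarith)
  have aux : ∀ x y z w : ℝ, 0 ≤ y → x ≤ y → z ≤ 2 * ℒ → 0 ≤ z → w ≤ C0 * x * z →
      w ≤ C0 * y * (2 * ℒ) := by
    intro x y z w hy hxy hz hz0 hw
    refine hw.trans ?_
    have h1 : C0 * x * z ≤ C0 * y * z := by gcongr
    refine h1.trans ?_
    gcongr
  have p1 : 0 ≤ Real.log (Q * V2) := Real.log_nonneg (by nlinarith)
  have p2 : 0 ≤ Real.log (Q * (T + 2 * κ)) := Real.log_nonneg (by nlinarith)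
  have b1 : (NN F V1 V2 : ℝ) ≤ C0 * (2 * T) * (2 * ℒ) :=
    aux _ _ _ _ (by linarith) (by linarith) l1 p1 hNV
  have b2 : (NN F V1 (T + 2 * κ) : ℝ) ≤ C0 * (5 * κ) * (2 * ℒ) :=
    aux _ _ _ _ (by linarith) (by linarith) l2 p2 hNa
  have b3 : (NN F (2 * T - 2 * κ) V2 : ℝ) ≤ C0 * (5 * κ) * (2 * ℒ) :=
    aux _ _ _ _ (by linarith) (by linarith) l1 p1 hNb
  -- sums over zeros
  have hmulti : ∀ s ∈ hfinV.toFinset, 1 ≤ mult F s := by
    intro s hs
    rw [Set.Finite.mem_toFinset] at hs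
    exact H370.Loc.mult_pos' hF (by linarith [hs.2.2.1]) hs.2.2.2.2
  have n1 : (NN F V1 V2 : ℝ) = ∑ s ∈ hfinV.toFinset, (mult F s : ℝ) := by
    unfold NN
    rw [finsum_mem_eq_finite_toFinset_sum _ hfinV]
    push_cast; rfl
  have n2 : (NN F V1 (T + 2 * κ) : ℝ) =
      ∑ s ∈ hfinV.toFinset, if s.im ≤ T + 2 * κ then (mult F s : ℝ) else 0 := by
    have hf : (zset F V1 (T + 2 * κ)).Finite := H370.zset_finite hF V1 _ (by linarith)
    unfold NN
    rw [finsum_mem_eq_finite_toFinset_sum _ hf, ← Finset.sum_filter]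
    push_cast
    refine Finset.sum_congr ?_ fun _ _ => rfl
    ext s
    simp only [Finset.mem_filter, Set.Finite.mem_toFinset]
    constructor
    · rintro ⟨h1, h2, h3, h4, h5⟩
      exact ⟨⟨h1, h2, h3, by linarith, h5⟩, h4⟩
    · rintro ⟨⟨h1, h2, h3, h4, h5⟩, h6⟩
      exact ⟨h1, h2, h3, h6, h5⟩
  have n3 : (NN F (2 * T - 2 * κ) V2 : ℝ) =
      ∑ s ∈ hfinV.toFinset, if 2 * T - 2 * κ < s.im then (mult F s : ℝ) else 0 := by
    have hf : (zset F (2 * T - 2 * κ) V2).Finite := H370.zset_finite hF _ _ (by linarith)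
    unfold NN
    rw [finsum_mem_eq_finite_toFinset_sum _ hf, ← Finset.sum_filter]
    push_cast
    refine Finset.sum_congr ?_ fun _ _ => rfl
    ext s
    simp only [Finset.mem_filter, Set.Finite.mem_toFinset]
    constructor
    · rintro ⟨h1, h2, h3, h4, h5⟩
      exact ⟨⟨h1, h2, by linarith, h4, h5⟩, h3⟩
    · rintro ⟨⟨h1, h2, h3, h4, h5⟩, h6⟩
      exact ⟨h1, h2, h6, h4, h5⟩
  have n4 : (NN F T (2 * T) : ℝ) =
      ∑ s ∈ hfinV.toFinset, if T < s.im ∧ s.im ≤ 2 * T then (mult F s : ℝ) else 0 := by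
    unfold NN
    rw [finsum_mem_eq_finite_toFinset_sum _ hfin, ← Finset.sum_filter]
    push_cast
    refine Finset.sum_congr ?_ fun _ _ => rfl
    ext s
    simp only [Finset.mem_filter, Set.Finite.mem_toFinset]
    constructor
    · rintro ⟨h1, h2, h3, h4, h5⟩
      exact ⟨⟨h1, h2, by linarith, by linarith, h5⟩, h3, h4⟩
    · rintro ⟨⟨h1, h2, h3, h4, h5⟩, h6, h7⟩
      exact ⟨h1, h2, h6, h7, h5⟩
  rw [← n1] at htr
  -- comparison of the numbers of zeros
  have m0 : ∀ s ∈ hfinV.toFinset, (0 : ℝ) ≤ (mult F s : ℝ) := fun s _ => Nat.cast_nonneg _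
  have c1 : (NN F T (2 * T) : ℝ) ≤ NN F V1 V2 := by
    rw [n4, n1]
    refine Finset.sum_le_sum fun s hs => ?_
    split_ifs
    · exact le_refl _
    · exact m0 s hs
  have c2 : (NN F V1 V2 : ℝ) ≤ NN F T (2 * T) + NN F V1 (T + 2 * κ) +
      NN F (2 * T - 2 * κ) V2 := by
    rw [n1, n2, n3, n4, ← Finset.sum_add_distrib, ← Finset.sum_add_distrib]
    refine Finset.sum_le_sum fun s hs => ?_
    have := m0 s hs
    by_cases h1 : s.im ≤ T + 2 * κ
    · rw [if_pos h1]
      have h2 : 0 ≤ (if T < s.im ∧ s.im ≤ 2 * T then (mult F s : ℝ) else 0) := by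
        split_ifs <;> linarith
      have h3 : 0 ≤ (if 2 * T - 2 * κ < s.im then (mult F s : ℝ) else 0) := by
        split_ifs <;> linarith
      linarith
    · rw [if_neg h1]
      by_cases h2 : 2 * T - 2 * κ < s.im
      · rw [if_pos h2]
        have h2 : 0 ≤ (if T < s.im ∧ s.im ≤ 2 * T then (mult F s : ℝ) else 0) := by
          split_ifs <;> linarith
        linarith
      · rw [if_neg h2, if_pos ⟨by push Not at h1; linarith, by push Not at h2; linarith⟩]
        linarith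
  have c3 : (∑ s ∈ hfinV.toFinset, if edg T κ (zz s) then (mult F s : ℝ) else 0) ≤
      NN F V1 (T + 2 * κ) + NN F (2 * T - 2 * κ) V2 := by
    rw [n2, n3, ← Finset.sum_add_distrib]
    refine Finset.sum_le_sum fun s hs => ?_
    have := m0 s hs
    have h2 : 0 ≤ (if s.im ≤ T + 2 * κ then (mult F s : ℝ) else 0) := by
      split_ifs <;> linarith
    have h3 : 0 ≤ (if 2 * T - 2 * κ < s.im then (mult F s : ℝ) else 0) := by
      split_ifs <;> linarith
    by_cases h : edg T κ (zz s)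
    · rw [if_pos h]
      unfold edg at h
      rw [H385.PerChi.zz_re] at h
      rcases h with h | h
      · rw [if_pos (by linarith : s.im ≤ T + 2 * κ)]; linarith
      · rw [if_pos (by linarith : 2 * T - 2 * κ < s.im)]; linarith
    · rw [if_neg h]; linarith
  -- the isolated zeros
  have hIfin : (isoS F T (2 * T) (δ / L)).Finite := hfin.subset fun s hs => hs.1
  have hd1 : δ / L ≤ 1 := by rw [div_le_one hL0]; linarith
  have c4 : ((hfinV.toFinset.filter (fun s => ¬ edg T κ (zz s) ∧ s.re = 1 / 2 ∧ mult F s = 1 ∧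
        ∀ s' ∈ hfinV.toFinset, ¬ edg T κ (zz s') → s' ≠ s → δ / L ≤ ‖s - s'‖)).card : ℝ) ≤
      ((isoS F T (2 * T) (δ / L)).ncard : ℝ) + (NN F V1 (T + 2 * κ) + NN F (2 * T - 2 * κ) V2) := by
    set G := hfinV.toFinset.filter (fun s => ¬ edg T κ (zz s) ∧ s.re = 1 / 2 ∧ mult F s = 1 ∧
        ∀ s' ∈ hfinV.toFinset, ¬ edg T κ (zz s') → s' ≠ s → δ / L ≤ ‖s - s'‖) with hG
    set H := hfinV.toFinset.filter (fun s => s.im ≤ T + 2 * κ ∨ 2 * T - 2 * κ < s.im) with hH
    have hsub : G ⊆ hIfin.toFinset ∪ H := by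
      intro s hs
      rw [hG, Finset.mem_filter] at hs
      obtain ⟨hs1, hs2, hs3, hs4, hs5⟩ := hs
      rw [Finset.mem_union]
      by_cases hin : s.im ≤ T + 2 * κ ∨ 2 * T - 2 * κ < s.im
      · right
        exact Finset.mem_filter.2 ⟨hs1, hin⟩
      · left
        push Not at hin
        rw [Set.Finite.mem_toFinset] at hs1 ⊢
        refine ⟨⟨hs1.1, hs1.2.1, by linarith [hin.1], by linarith [hin.2], hs1.2.2.2.2⟩, hs3, hs4,
          fun s' hz hre hre' hne => ?_⟩
        by_contra hlt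
        push Not at hlt
        have h1 := (Complex.abs_im_le_norm (s - s')).trans_lt hlt
        rw [Complex.sub_im] at h1
        have h2 := abs_lt.1 (h1.trans_le hd1)
        have h4 : s' ∈ hfinV.toFinset := by
          rw [Set.Finite.mem_toFinset]
          exact ⟨hre, hre', by linarith [hin.1], by linarith [hin.2], hz⟩
        have h5 : ¬ edg T κ (zz s') := by
          unfold edg
          rw [H385.PerChi.zz_re]
          push Not
          exact ⟨by linarith [hin.1], by linarith [hin.2]⟩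
        have := hs5 s' h4 h5 hne
        linarith
    have h1 : (G.card : ℝ) ≤ (hIfin.toFinset.card : ℝ) + (H.card : ℝ) := by
      exact_mod_cast (Finset.card_le_card hsub).trans (Finset.card_union_le _ _)
    have h2 : (hIfin.toFinset.card : ℝ) = ((isoS F T (2 * T) (δ / L)).ncard : ℝ) := by
      rw [Set.ncard_eq_toFinset_card _ hIfin]
    have h3 : (H.card : ℝ) ≤ NN F V1 (T + 2 * κ) + NN F (2 * T - 2 * κ) V2 := by
      rw [n2, n3, ← Finset.sum_add_distrib, hH, Finset.card_filter]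
      push_cast
      refine Finset.sum_le_sum fun s hs => ?_
      have hm1 : (1 : ℝ) ≤ (mult F s : ℝ) := by exact_mod_cast hmulti s hs
      have h2 : 0 ≤ (if s.im ≤ T + 2 * κ then (mult F s : ℝ) else 0) := by
        split_ifs <;> linarith
      have h3 : 0 ≤ (if 2 * T - 2 * κ < s.im then (mult F s : ℝ) else 0) := by
        split_ifs <;> linarith
      by_cases h : s.im ≤ T + 2 * κ ∨ 2 * T - 2 * κ < s.im
      · rw [if_pos h]
        rcases h with h | h
        · rw [if_pos h]; linarith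
        · rw [if_pos h]; linarith
      · rw [if_neg h]; linarith
    linarith
  -- conclusion
  set N := (NN F T (2 * T) : ℝ) with hN
  set N' := (NN F V1 V2 : ℝ) with hN'
  set B := (NN F V1 (T + 2 * κ) : ℝ) + NN F (2 * T - 2 * κ) V2 with hB
  have hB0 : 0 ≤ B := by positivity
  have hδ2 : δ ^ 2 ≤ 1 / 100 := by nlinarith
  have hδ0 : 0 ≤ δ ^ 2 := sq_nonneg δ
  have hBb : B ≤ 20 * (C0 * κ * ℒ) := by
    rw [hB]; linarith
  have hN'e : e * N' ≤ 4 * (C0 * (T * e) * ℒ) := by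
    have := mul_le_mul_of_nonneg_left b1 he0.le
    linarith
  have h74 : 74 * δ ^ 2 * N' ≤ 74 * δ ^ 2 * N + B := by
    have h1 : 74 * δ ^ 2 * N' ≤ 74 * δ ^ 2 * (N + B) :=
      mul_le_mul_of_nonneg_left (by linarith) (by positivity)
    have h2 : 74 * δ ^ 2 * B ≤ 1 * B := mul_le_mul_of_nonneg_right (by linarith) hB0
    linarith
  have hfinal : C0 * κ * ℒ ≥ 0 := by positivity
  have hfinal2 : C0 * (T * e) * ℒ ≥ 0 := by positivity
  have eR : 400 * C0 * (κ + T * e) * ℒ = 400 * (C0 * κ * ℒ) + 400 * (C0 * (T * e) * ℒ) := by ring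
  rw [eR]
  linarith

end Pool.Agent.J6H88.IZ
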